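import Pool.Agent.Run7.h432.AC.Glue
import Pool.Agent.Run7.h432.AC.P_ANL
import Pool.Agent.Run7.h432.AC.P_CENTER
import Pool.Agent.Run7.h432.AC.P_DEC
import Pool.Agent.Run7.h432.AC.P_DIV
import Pool.Agent.Run7.h432.AC.P_FIN
import Pool.Agent.Run7.h432.AC.P_INJ
import Pool.Agent.Run7.h432.AC.P_INJ1
import Pool.Agent.Run7.h432.AC.P_LIM
import Pool.Agent.Run7.h432.AC.P_NEWT
import Pool.Agent.Run7.h432.AC.P_POLY
import Pool.Agent.Run7.h432.AC.P_RAD
import Pool.Agent.Run7.h432.AC.P_REC
import Pool.Agent.Run7.h432.AC.P_SUP
import Pool.Agent.Run7.h432.AC.P_VAND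
import Pool.Agent.Run7.h13.AC.P_GRAD
import Pool.Agent.Run7.h13.AC.P_HN
import Pool.Agent.Run7.h13.AC.P_P3
import Pool.Agent.Run7.h669.AC.GEN
import Pool.Agent.Run7.h669.AC.STEP
import Pool.Agent.Run7.h930.AC.CONST
import Pool.Agent.Run7.h930.AC.LT
import Pool.Agent.Run7.h930.AC.TAY

/-!
# Algebraically closed associative algebras exist

Plan of the proof. Let `E` be a field of characteristic zero with two commuting derivations
`δ₁, δ₂` in which every nonconstant differential polynomial in one unknown has a zero (such `E`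
exist: adjoin, again and again, formal power series solutions in two variables). Let `R` be the
ring of Hahn series `∑ a_q ħ^q` (`q ∈ ℚ`, well-ordered support, `a_q ∈ E`) with the Moyal product
`a * b = ∑_k (ħ^k / k!) δ₂^k(a) δ₁^k(b)`, and let `P` be its centre, the series with constant
coefficients. Then `R` is a skew field, every equation `f = 0` in one unknown with `f ∈ R * P[x]`,
`f ∉ R`, has a solution in `R` (Newton's method: the leading part of `f(x + ħ^r y) - f(x)` is a
nonconstant differential polynomial in `y`, as `R` satisfies no generalised polynomial identity),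
and by `OneVariable.lean` the same holds for countably many unknowns, since `R ≠ P`.
-/

set_option autoImplicit false

namespace Pool.Agent.Results.MP_4b1745_al.ClosedAlgebrasExist

open Pool.Agent.Results.MP_4b1745_al.OneVariable Run7.h432.AC

/-- **Algebraically closed associative algebras exist.** There are a field `P` and an associative
`P`-algebra `R`, which is moreover a skew field with centre `P`, such that every equation `f = 0`
with `f ∈ R * P⟨x_0, x_1, x_2, …⟩` and `f ∉ R` has a solution in `R`. -/
theorem result : ∃ (P R : Type) (_ : Field P) (_ : DivisionRing R) (_ : Algebra P R),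
    (∀ r : R, (∀ s : R, r * s = s * r) ↔ ∃ p : P, algebraMap P R p = r) ∧ AlgClosedIn P R ℕ := by
  have hSup : Sup := p_SUP p_FIN
  have hP1 : P1C := p_P1 DEC.p_DEC
  have hP3 : P3C := p_P3 hSup
  have hRAD : RADC := p_RAD DEC.p_DEC hP3
  exact exists_closed
    (p_LIM (Run7.h669.AC.t_STEP Run7.h669.AC.t_GEN REC.p_REC Run7.h930.AC.TAY.t_TAY))
    hSup DEC.p_DEC p_DIV CENTER.p_CENTER p_GRAD Run7.h930.AC.CONST.t_CONST p_HN
    Run7.h930.AC.LT.t_LT p_INJ1 INJ.p_INJ (p_NEWT hSup hP1 hP3 hRAD)

end Pool.Agent.Results.MP_4b1745_al.ClosedAlgebrasExist
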